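import Mathlib
import Pool.Agent.helper18.Rot.SymDefs

/-!
# Facts about the substitution (module `comb` of `MP_1ac403_an`)
-/

open Topology Filter Set

namespace Pool.Agent.helper54.Rot

open Pool.Agent.helper18.Rot Pool.Agent.helper18.Rot.Sym

theorem jj_pos (k : ℕ) : 1 ≤ jj k := by unfold jj; omega

theorem HH_eq (k : ℕ) : HH k = 12 * jj k * (k + 1) := by
  obtain ⟨j, hj⟩ : ∃ j, jj k = j + 1 := ⟨jj k - 1, by have := jj_pos k; omega⟩
  unfold HH mA ml mB
  rw [hj]
  have h : 2 * (j + 1) - 1 = 2 * j + 1 := by omega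
  rw [h]
  ring

theorem jj_le (k : ℕ) : jj k ≤ k + 1 := by
  unfold jj
  have := Nat.unpair_left_le k
  omega

theorem ml_ge (k : ℕ) : 3 ≤ ml k := by
  unfold ml
  have h := jj_pos k
  have : 1 ≤ jj k * (k + 1) := Nat.mul_pos (by omega) (by omega)
  nlinarith

theorem gR_lt (k : ℕ) (t : Letter) : 8 * (k + 1) ^ 2 * (HH k + 2) ≤ NN k ∧ gR k t ≤ HH k + 1 ∧
    gR k t + 2 < nt k t := by
  have h1 := HH_eq k
  have h2 := jj_le k
  have h3 : HH k ≤ 12 * (k + 1) * (k + 1) := by
    rw [h1]
    exact Nat.mul_le_mul_right _ (Nat.mul_le_mul_left _ h2)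
  have h4 : 8 * (k + 1) ^ 2 * (HH k + 2) ≤ NN k := by
    have h5 : 8 * (k + 1) ^ 2 * (HH k + 2) ≤ 8 * (k + 2) ^ 2 * (14 * (k + 2) ^ 2) := by
      apply Nat.mul_le_mul
      · exact Nat.mul_le_mul_left _ (Nat.pow_le_pow_left (by omega) 2)
      · nlinarith
    have h6 : (k + 2) ^ 4 ≤ (k + 2) ^ 8 := Nat.pow_le_pow_right (by omega) (by omega)
    have h7 : 8 * (k + 2) ^ 2 * (14 * (k + 2) ^ 2) = 112 * (k + 2) ^ 4 := by ring
    unfold NN
    omega
  have h5 : gR k t ≤ HH k + 1 := by
    unfold gR HH
    split_ifs <;> omega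
  refine ⟨h4, h5, ?_⟩
  have h6 : NN k - 1 ≤ nt k t := by unfold nt; split_ifs <;> omega
  have h7 : 8 * (HH k + 2) ≤ 8 * (k + 1) ^ 2 * (HH k + 2) := by
    apply Nat.mul_le_mul_right
    have : 1 ≤ (k + 1) ^ 2 := Nat.one_le_pow _ _ (by omega)
    omega
  omega

/-- every `j ≥ 1` is visited infinitely often -/
theorem jj_frequently (j : ℕ) (hj : 1 ≤ j) : ∃ᶠ k in atTop, jj k = j := by
  rw [frequently_atTop]
  intro n
  refine ⟨Nat.pair (j - 1) n, Nat.right_le_pair _ _, ?_⟩
  unfold jj
  rw [Nat.unpair_pair]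
  show j - 1 + 1 = j
  omega

theorem nt_pos (k : ℕ) (t : Letter) : 0 < nt k t := by
  have := (gR_lt k t).2.2
  omega

theorem eA_le (k : ℕ) (t : Letter) : 3 * mA k + eA t ≤ gB k t ∧ gB k t ≤ gR k t := by
  have h := ml_ge k
  unfold eA gB gR
  refine ⟨?_, ?_⟩
  · split_ifs <;> omega
  · by_cases h0 : t = 0
    · simp [h0]
    by_cases h1 : t = 1
    · simp [h1]
    · simp only [h0, h1, false_or, if_false]
      split_ifs <;> omega

/-- explicit formula for the sheet before letter `i` -/
theorem Lb_eq (k : ℕ) (t : Letter) {i : ℕ} (hi : i ≤ nt k t) :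
    Lb k t i = ![((min i (3 * mA k + eA t) : ℕ) : ZMod 3),
      ((min i (gR k t) - gB k t : ℕ) : ZMod 3)] := by
  obtain ⟨hA, hB⟩ := eA_le k t
  induction i with
  | zero =>
    funext a
    fin_cases a <;> simp [Lb]
  | succ i ih =>
    have ih' := ih (by omega)
    have h1 : Lb k t (i + 1) = Lb k t i + ph (sub k t i) := by
      unfold Lb
      rw [Finset.sum_range_succ]
    rw [h1, ih']
    by_cases c1 : i < 3 * mA k + eA t
    · have h2 : sub k t i = 0 := by unfold sub; rw [if_pos c1]
      have e1 : min i (3 * mA k + eA t) = i := by omega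
      have e2 : min (i + 1) (3 * mA k + eA t) = i + 1 := by omega
      have e3 : min i (gR k t) - gB k t = 0 := by omega
      have e4 : min (i + 1) (gR k t) - gB k t = 0 := by omega
      rw [h2, e1, e2, e3, e4]
      funext a
      fin_cases a <;> simp [ph]
    by_cases c2 : i < gB k t
    · have h2 : sub k t i = 1 := by unfold sub; rw [if_neg c1, if_pos c2]
      have e1 : min i (3 * mA k + eA t) = 3 * mA k + eA t := by omega
      have e2 : min (i + 1) (3 * mA k + eA t) = 3 * mA k + eA t := by omega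
      have e3 : min i (gR k t) - gB k t = 0 := by omega
      have e4 : min (i + 1) (gR k t) - gB k t = 0 := by omega
      rw [h2, e1, e2, e3, e4]
      funext a
      fin_cases a <;> simp [ph]
    by_cases c3 : i < gR k t
    · have h2 : sub k t i = 2 := by unfold sub; rw [if_neg c1, if_neg c2, if_pos c3]
      have e1 : min i (3 * mA k + eA t) = 3 * mA k + eA t := by omega
      have e2 : min (i + 1) (3 * mA k + eA t) = 3 * mA k + eA t := by omega
      have e3 : min i (gR k t) - gB k t = i - gB k t := by omega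
      have e4 : min (i + 1) (gR k t) - gB k t = i - gB k t + 1 := by omega
      rw [h2, e1, e2, e3, e4]
      funext a
      fin_cases a <;> simp [ph]
    · have e1 : min i (3 * mA k + eA t) = 3 * mA k + eA t := by omega
      have e2 : min (i + 1) (3 * mA k + eA t) = 3 * mA k + eA t := by omega
      have e3 : min i (gR k t) - gB k t = gR k t - gB k t := by omega
      have e4 : min (i + 1) (gR k t) - gB k t = gR k t - gB k t := by omega
      have h2 : ph (sub k t i) = 0 := by
        unfold sub
        rw [if_neg c1, if_neg c2, if_neg c3]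
        split_ifs <;> simp [ph]
      rw [h2, e1, e2, e3, e4, add_zero]

theorem Lb_nt (k : ℕ) (t : Letter) : Lb k t (nt k t) = ph t := by
  rw [Lb_eq k t le_rfl]
  have h1 := (gR_lt k t).2.2
  obtain ⟨hA, hB⟩ := eA_le k t
  have e1 : min (nt k t) (3 * mA k + eA t) = 3 * mA k + eA t := by omega
  have e2 : min (nt k t) (gR k t) = gR k t := by omega
  rw [e1, e2]
  have h3 : ((3 : ℕ) : ZMod 3) = 0 := by decide
  have e3 : ((3 * mA k + eA t : ℕ) : ZMod 3) = eA t := by
    push_cast
    have : (3 : ZMod 3) = 0 := by decide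
    rw [this]; ring
  rw [e3]
  have e4 : ((gR k t - gB k t : ℕ) : ZMod 3) = if t = 2 then 1 else 0 := by
    unfold gR gB
    have h4 : (3 : ZMod 3) = 0 := by decide
    by_cases h0 : t = 0
    · subst h0
      have : 3 * mA k + ml k + 3 * mB k + 1 - (3 * mA k + ml k + 1) = 3 * mB k := by omega
      simp [this, h4]
    by_cases h1 : t = 1
    · subst h1
      have : 3 * mA k + ml k + 3 * mB k + 1 - (3 * mA k + ml k + 1) = 3 * mB k := by omega
      simp [this, h4]
    by_cases h2 : t = 2
    · subst h2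
      have : 3 * mA k + ml k + 3 * mB k + 1 - (3 * mA k + ml k) = 3 * mB k + 1 := by omega
      simp [this, h4]
    · have : 3 * mA k + ml k + 3 * mB k - (3 * mA k + ml k) = 3 * mB k := by omega
      simp [h0, h1, h2, this, h4]
  rw [e4]
  unfold eA ph
  fin_cases t <;> (funext a; fin_cases a <;> simp)

theorem len_succ (k : ℕ) (t : Letter) (h : ∀ t : Letter, t ≠ 4 → len k t = len k 3) :
    len (k + 1) t = (nt k t - 1) * len k 3 + len k 4 := by
  obtain ⟨n, hn⟩ : ∃ n, nt k t = n + 1 := ⟨nt k t - 1, by have := nt_pos k t; omega⟩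
  have h1 := (gR_lt k t).2.2
  obtain ⟨hA, hB⟩ := eA_le k t
  show ∑ i ∈ Finset.range (nt k t), len k (sub k t i) = _
  rw [hn, Finset.sum_range_succ]
  have e1 : sub k t n = 4 := by
    unfold sub
    rw [if_neg (by omega), if_neg (by omega), if_neg (by omega), if_neg (by omega)]
  have e2 : ∀ i ∈ Finset.range n, len k (sub k t i) = len k 3 := by
    intro i hi
    rw [Finset.mem_range] at hi
    apply h
    unfold sub
    split_ifs with a b c d
    · decide
    · decide
    · decide
    · decide
    · omega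
  rw [e1, Finset.sum_congr rfl e2, Finset.sum_const, Finset.card_range, smul_eq_mul]
  rfl

theorem len_of_ne (k : ℕ) {t : Letter} (ht : t ≠ 4) : len k t = len k 3 := by
  induction k generalizing t with
  | zero => rfl
  | succ k ih =>
    rw [len_succ k t fun t ht => ih ht, len_succ k 3 fun t ht => ih ht]
    have h1 : nt k t = nt k 3 := by
      unfold nt
      rw [if_neg ht, if_neg (by decide)]
    rw [h1]

theorem len_succ_three (k : ℕ) : len (k + 1) 3 = (NN k - 1) * len k 3 + len k 4 := by
  rw [len_succ k 3 fun t ht => len_of_ne k ht]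
  rfl

theorem len_succ_four (k : ℕ) : len (k + 1) 4 + len k 3 = len (k + 1) 3 := by
  rw [len_succ k 3 fun t ht => len_of_ne k ht, len_succ k 4 fun t ht => len_of_ne k ht]
  have h1 : nt k 3 = NN k := rfl
  have h2 : nt k 4 = NN k - 1 := rfl
  have h3 := (gR_lt k 4).2.2
  rw [h2] at h3
  rw [h1, h2]
  obtain ⟨n, hn⟩ : ∃ n, NN k = n + 2 := ⟨NN k - 2, by omega⟩
  rw [hn]
  have e1 : n + 2 - 1 - 1 = n := by omega
  have e2 : n + 2 - 1 = n + 1 := by omega
  rw [e1, e2]
  ring

theorem len_pos (k : ℕ) (t : Letter) : 0 < len k t := by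
  induction k generalizing t with
  | zero => exact Nat.one_pos
  | succ k ih =>
    exact Finset.sum_pos (fun i _ => ih _) ⟨0, Finset.mem_range.2 (nt_pos k t)⟩

theorem len_four_le (k : ℕ) : len k 4 ≤ len k 3 := by
  cases k with
  | zero => exact le_rfl
  | succ k => have := len_succ_four k; omega

theorem tm_eq (k : ℕ) (t : Letter) {i : ℕ} (hi : i < nt k t) : tm k t i = i * len k 3 := by
  have e2 : ∀ r ∈ Finset.range i, len k (sub k t r) = len k 3 := by
    intro r hr
    rw [Finset.mem_range] at hr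
    apply len_of_ne
    unfold sub
    split_ifs with a b c d
    · decide
    · decide
    · decide
    · decide
    · omega
  unfold tm
  rw [Finset.sum_congr rfl e2, Finset.sum_const, Finset.card_range, smul_eq_mul]

end Pool.Agent.helper54.Rot
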