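import Mathlib
import Pool.Agent.helper18.Rot.SymDefs

/-!
# Existence of the parameters (module `params` of `MP_1ac403_an`)
-/

open Topology Filter Set

namespace Pool.Agent.helper54.Rot

open Pool.Agent.helper18.Rot Pool.Agent.helper18.Rot.Sym

theorem NN_ge (k : ℕ) : (256000 : ℝ) ≤ NN k := by
  have h : (2 : ℕ) ^ 8 ≤ (k + 2) ^ 8 := Nat.pow_le_pow_left (by omega) 8
  have h2 : 256000 ≤ NN k := by unfold NN; omega
  exact_mod_cast h2

/-- approximations of the continued fraction -/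
noncomputable def alt : ℕ → ℕ → ℝ
  | 0, _ => 0
  | n + 1, k => 1 / (NN k - alt n (k + 1))

theorem alt_bd (n k : ℕ) : 0 ≤ alt n k ∧ alt n k ≤ 1 / 2000 := by
  induction n generalizing k with
  | zero => simp [alt]
  | succ n ih =>
    have h1 := NN_ge k
    have h2 := ih (k + 1)
    have h3 : (2000 : ℝ) ≤ NN k - alt n (k + 1) := by linarith
    simp only [alt]
    constructor
    · positivity
    · exact one_div_le_one_div_of_le (by norm_num) h3

theorem alt_mono_step (n k : ℕ) : alt n k ≤ alt (n + 1) k := by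
  induction n generalizing k with
  | zero => simp [alt]
  | succ n ih =>
    have h1 := NN_ge k
    have h2 := alt_bd n (k + 1)
    have h3 := alt_bd (n + 1) (k + 1)
    have h4 := ih (k + 1)
    show 1 / (NN k - alt n (k + 1)) ≤ 1 / (NN k - alt (n + 1) (k + 1))
    exact one_div_le_one_div_of_le (by linarith) (by linarith)

theorem alt_mono (k : ℕ) : Monotone fun n => alt n k :=
  monotone_nat_of_le_succ fun n => alt_mono_step n k

noncomputable def alL (k : ℕ) : ℝ := ⨆ n, alt n k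

theorem alt_tendsto (k : ℕ) : Tendsto (fun n => alt n k) atTop (𝓝 (alL k)) :=
  tendsto_atTop_ciSup (alt_mono k) ⟨1 / 2000, by rintro _ ⟨n, rfl⟩; exact (alt_bd n k).2⟩

theorem alL_le (k : ℕ) : alL k ≤ 1 / 2000 :=
  le_of_tendsto (alt_tendsto k) (Eventually.of_forall fun n => (alt_bd n k).2)

theorem alL_ge (n k : ℕ) : alt n k ≤ alL k :=
  (alt_mono k).ge_of_tendsto (alt_tendsto k) n

theorem alL_nonneg (k : ℕ) : 0 ≤ alL k := (alt_bd 0 k).1.trans (alL_ge 0 k)

theorem alL_eq (k : ℕ) : alL k = 1 / (NN k - alL (k + 1)) := by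
  have h1 : Tendsto (fun n => alt (n + 1) k) atTop (𝓝 (alL k)) :=
    (alt_tendsto k).comp (tendsto_add_atTop_nat 1)
  have h2 : Tendsto (fun n => 1 / ((NN k : ℝ) - alt n (k + 1))) atTop
      (𝓝 (1 / (NN k - alL (k + 1)))) := by
    apply Tendsto.div tendsto_const_nhds (tendsto_const_nhds.sub (alt_tendsto (k + 1)))
    have := NN_ge k
    have := alL_le (k + 1)
    have : (0 : ℝ) < NN k - alL (k + 1) := by linarith
    exact this.ne'
  exact tendsto_nhds_unique h1 h2

theorem alL_rec (k : ℕ) : alL k * (NN k - alL (k + 1)) = 1 := by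
  have := NN_ge k
  have := alL_le (k + 1)
  have h : (0 : ℝ) < NN k - alL (k + 1) := by linarith
  rw [alL_eq k]
  field_simp

theorem alL_pos (k : ℕ) : 0 < alL k := by
  have := NN_ge k
  have := alL_le (k + 1)
  rw [alL_eq k]
  have h : (0 : ℝ) < NN k - alL (k + 1) := by linarith
  positivity

/-- solution of the recursion `b k = (c k + b (k + 1)) * a k` -/
theorem rec_exists (a c : ℕ → ℝ) (ha : ∀ k, 0 < a k) (ha' : ∀ k, a k ≤ 1 / 1000)
    (hc : ∀ k, 0 < c k) (hca : ∀ k, c k * a k ≤ 1 / 1000) :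
    ∃ b : ℕ → ℝ, (∀ k, 0 < b k) ∧ (∀ k, b k = (c k + b (k + 1)) * a k) ∧
      ∀ k, b k ≤ 1 / 999 := by
  set f : ℕ → ℕ → ℝ := fun k i => c (k + i) * a (k + i) * ∏ l ∈ Finset.range i, a (k + l) with hf
  have hf0 : ∀ k i, 0 ≤ f k i := fun k i =>
    mul_nonneg (mul_nonneg (hc _).le (ha _).le) (Finset.prod_nonneg fun l _ => (ha _).le)
  have hprod : ∀ k i, ∏ l ∈ Finset.range i, a (k + l) ≤ (1 / 1000 : ℝ) ^ i := by
    intro k i
    calc ∏ l ∈ Finset.range i, a (k + l) ≤ ∏ l ∈ Finset.range i, (1 / 1000 : ℝ) :=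
          Finset.prod_le_prod (fun l _ => (ha _).le) fun l _ => ha' _
      _ = _ := by simp
  have hfb : ∀ k i, f k i ≤ 1 / 1000 * (1 / 1000 : ℝ) ^ i := by
    intro k i
    exact mul_le_mul (hca _) (hprod k i) (Finset.prod_nonneg fun l _ => (ha _).le) (by norm_num)
  have hgeo : Summable fun i : ℕ => 1 / 1000 * (1 / 1000 : ℝ) ^ i :=
    (summable_geometric_of_lt_one (by norm_num) (by norm_num)).mul_left _
  have hsum : ∀ k, Summable (f k) := fun k =>
    Summable.of_nonneg_of_le (hf0 k) (hfb k) hgeo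
  refine ⟨fun k => ∑' i, f k i, ?_, ?_, ?_⟩
  · intro k
    have h1 : 0 < f k 0 := by
      simp only [hf, Finset.range_zero, Finset.prod_empty, mul_one, add_zero]
      exact mul_pos (hc k) (ha k)
    exact (hsum k).tsum_pos (hf0 k) 0 h1
  · intro k
    show ∑' i, f k i = (c k + ∑' i, f (k + 1) i) * a k
    rw [(hsum k).tsum_eq_zero_add]
    have h1 : f k 0 = c k * a k := by simp [hf]
    have h2 : ∀ i, f k (i + 1) = a k * f (k + 1) i := by
      intro i
      show c (k + (i + 1)) * a (k + (i + 1)) * ∏ l ∈ Finset.range (i + 1), a (k + l) =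
        a k * (c (k + 1 + i) * a (k + 1 + i) * ∏ l ∈ Finset.range i, a (k + 1 + l))
      have e1 : k + (i + 1) = k + 1 + i := by ring
      have e2 : ∏ l ∈ Finset.range i, a (k + (l + 1)) = ∏ l ∈ Finset.range i, a (k + 1 + l) :=
        Finset.prod_congr rfl fun l _ => by rw [show k + (l + 1) = k + 1 + l by ring]
      rw [Finset.prod_range_succ', e1, e2, add_zero]
      ring
    rw [h1]
    simp only [h2]
    rw [tsum_mul_left]
    ring
  · intro k
    calc ∑' i, f k i ≤ ∑' i : ℕ, 1 / 1000 * (1 / 1000 : ℝ) ^ i :=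
          (hsum k).tsum_le_tsum (hfb k) hgeo
      _ = 1 / 999 := by
          rw [tsum_mul_left, tsum_geometric_of_lt_one (by norm_num) (by norm_num)]
          norm_num

theorem jj_le' (k : ℕ) : jj k ≤ k + 1 := by
  unfold jj
  have := Nat.unpair_left_le k
  omega

theorem coef_bd (k : ℕ) : 3 * mA k ≤ 12 * (k + 2) ^ 2 ∧ ml k ≤ 12 * (k + 2) ^ 2 ∧
    3 * mB k ≤ 12 * (k + 2) ^ 2 := by
  have h := jj_le' k
  have h1 : 1 ≤ jj k := by unfold jj; omega
  have h2 : jj k * (k + 1) ≤ (k + 2) * (k + 2) := Nat.mul_le_mul (by omega) (by omega)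
  have h3 : (k + 1) ≤ (k + 2) * (k + 2) := by nlinarith
  unfold mA ml mB
  refine ⟨?_, ?_, ?_⟩
  · nlinarith
  · nlinarith
  · have h4 : (2 * jj k - 1) * (k + 1) ≤ (2 * jj k) * (k + 1) := Nat.mul_le_mul (by omega) le_rfl
    nlinarith

theorem coef_al (k c : ℕ) (hc : c ≤ 12 * (k + 2) ^ 2) : (c : ℝ) * alL k ≤ 1 / 1000 := by
  have h1 := NN_ge k
  have h2 := alL_le (k + 1)
  have h3 : (0 : ℝ) < NN k - alL (k + 1) := by linarith
  rw [alL_eq k, mul_one_div, div_le_div_iff₀ h3 (by norm_num)]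
  have h4 : ((c : ℕ) : ℝ) ≤ 12 * ((k : ℝ) + 2) ^ 2 := by exact_mod_cast hc
  have h5 : (NN k : ℝ) = 1000 * ((k : ℝ) + 2) ^ 8 := by unfold NN; push_cast; ring
  have h6 : (2 : ℝ) ^ 6 ≤ ((k : ℝ) + 2) ^ 6 :=
    pow_le_pow_left₀ (by norm_num) (by have : (0 : ℝ) ≤ k := Nat.cast_nonneg k; linarith) 6
  have h7 : (1 : ℝ) ≤ ((k : ℝ) + 2) ^ 2 := by
    have : (0 : ℝ) ≤ k := Nat.cast_nonneg k
    nlinarith
  have h8 : ((k : ℝ) + 2) ^ 8 = ((k : ℝ) + 2) ^ 2 * ((k : ℝ) + 2) ^ 6 := by ring
  rw [h5, h8]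
  nlinarith

theorem data_exists : Nonempty Data := by
  have ha : ∀ k, 0 < alL k := alL_pos
  have ha' : ∀ k, alL k ≤ 1 / 1000 := fun k => (alL_le k).trans (by norm_num)
  have hj : ∀ k, 1 ≤ jj k := fun k => by unfold jj; omega
  obtain ⟨bA, hA0, hA1, hA2⟩ := rec_exists alL (fun k => ((3 * mA k : ℕ) : ℝ)) ha ha'
    (fun k => by
      have : 0 < 3 * mA k := by
        unfold mA; positivity
      exact_mod_cast this)
    fun k => coef_al k _ (coef_bd k).1
  obtain ⟨ga, hg0, hg1, hg2⟩ := rec_exists alL (fun k => ((ml k : ℕ) : ℝ)) ha ha'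
    (fun k => by
      have h := hj k
      have : 0 < ml k := by
        unfold ml; positivity
      exact_mod_cast this)
    fun k => coef_al k _ (coef_bd k).2.1
  obtain ⟨bB, hB0, hB1, hB2⟩ := rec_exists alL (fun k => ((3 * mB k : ℕ) : ℝ)) ha ha'
    (fun k => by
      have h := hj k
      have h' : 0 < 2 * jj k - 1 := by omega
      have : 0 < 3 * mB k := by
        unfold mB; positivity
      exact_mod_cast this)
    fun k => coef_al k _ (coef_bd k).2.2
  exact ⟨{
    al := alL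
    bA := bA
    ga := ga
    bB := bB
    al_pos := ha
    al_lt := fun k => (alL_le k).trans_lt (by norm_num)
    al_rec := alL_rec
    bA_pos := hA0
    ga_pos := hg0
    bB_pos := hB0
    bA_rec := fun k => by rw [hA1 k]; push_cast; ring
    ga_rec := fun k => by rw [hg1 k]
    bB_rec := fun k => by rw [hB1 k]; push_cast; ring
    small := fun k => by
      have := hA2 k
      have := hg2 k
      have := hB2 k
      norm_num at *
      linarith }⟩

end Pool.Agent.helper54.Rot
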